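import Mathlib

/-!
# Project ST (MP_a499ba_nt), block N: the numbers
-/

set_option autoImplicit false

namespace Pool.Agent.Helper56.ST

theorem v0_bd {n : ℕ} (hn : 1 ≤ n) : 1 / 4 ≤ Real.log (n + 1 / 2) ∧ Real.exp ((Real.log (n + 1 / 2) + 1 / (24 * n)) / 2) ≤ 2 * √n ∧
    Real.log (n + 1 / 2) ≤ n := by
  have hn1 : (1 : ℝ) ≤ n := by exact_mod_cast hn
  have hp : (0 : ℝ) < n + 1 / 2 := by linarith
  refine ⟨?_, ?_, ?_⟩
  · have h1 : (1 : ℝ) / 4 ≤ Real.log (3 / 2) := by
      rw [Real.le_log_iff_exp_le (by norm_num)]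
      have h2 := Real.exp_bound_div_one_sub_of_interval (x := 1 / 4) (by norm_num) (by norm_num)
      linarith
    exact h1.trans (Real.log_le_log (by norm_num) (by linarith))
  · have h1 : Real.exp (Real.log (n + 1 / 2) + 1 / (24 * n)) ≤ 4 * n := by
      rw [Real.exp_add, Real.exp_log hp]
      have h2 : (1 : ℝ) / (24 * n) ≤ 1 / 24 := one_div_le_one_div_of_le (by norm_num) (by linarith)
      have h3 : Real.exp (1 / (24 * n)) ≤ 2 := by
        refine (Real.exp_le_exp.2 h2).trans ?_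
        have := Real.exp_bound_div_one_sub_of_interval (x := 1 / 24) (by norm_num) (by norm_num)
        linarith
      calc ((n : ℝ) + 1 / 2) * Real.exp (1 / (24 * n)) ≤ (n + 1 / 2) * 2 := mul_le_mul_of_nonneg_left h3 hp.le
        _ ≤ 4 * n := by linarith
    have h4 : Real.exp ((Real.log (n + 1 / 2) + 1 / (24 * n)) / 2) = √(Real.exp (Real.log (n + 1 / 2) + 1 / (24 * n))) := by
      rw [Real.sqrt_eq_rpow, ← Real.exp_mul]
      congr 1
      ring
    rw [h4, show (2 : ℝ) * √n = √(4 * n) by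
      rw [Real.sqrt_mul (by norm_num), show (4 : ℝ) = 2 ^ 2 by norm_num, Real.sqrt_sq (by norm_num)]]
    exact Real.sqrt_le_sqrt h1
  · have := Real.log_le_sub_one_of_pos hp
    linarith

end Pool.Agent.Helper56.ST
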