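import Pool.Agent.Helper56.ST.V0
import Pool.Agent.Helper71.ST.S
import Pool.Agent.Helper66.ST.I
import Pool.Agent.Helper95.ST.D

/-!
# Project ST (MP_a499ba_nt), block N: the near side
-/

set_option autoImplicit false

namespace Pool.Agent.Helper56.ST

open MeasureTheory Pool.Agent.Helper99.MS Pool.Agent.Helper71.ST
open Pool.Agent.Helper82.ST (om_split)
open Pool.Agent.Helper95.ST (tc_split tc_gB)
open Pool.Agent.Helper66.ST (EE_tail EE_one EE_osc EE_int)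

theorem Gt_exp_meas (a : ℕ → ℝ) (t : ℝ) : Measurable (fun x : ℝ => Gt a t (Real.exp x)) := by
  have h : (fun x : ℝ => Gt a t (Real.exp x)) =
      (fun m : ℕ => ∑ n ∈ Finset.Icc 1 m, (a n : ℂ) * Complex.exp (((t * Real.log n : ℝ) : ℂ) * Complex.I)) ∘
        (fun x => ⌊Real.exp x⌋₊) := rfl
  rw [h]
  exact measurable_from_nat.comp (Nat.measurable_floor.comp Real.measurable_exp)

theorem Dt_meas (a : ℕ → ℝ) (t : ℝ) : Measurable (Dt a t) := by
  unfold Dt
  refine (Gt_exp_meas a t).mul ?_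
  have : Continuous fun x : ℝ => Complex.exp (-((1 / 2 + t * Complex.I) * x)) := by fun_prop
  exact this.measurable

theorem norm_e (t w : ℝ) : ‖Complex.exp ((1 / 2 + t * Complex.I) * w)‖ = Real.exp (w / 2) := by
  rw [Complex.norm_exp]
  congr 1
  simp
  ring

theorem norm_e' (t w : ℝ) : ‖Complex.exp (-((1 / 2 + t * Complex.I) * w))‖ = Real.exp (-(w / 2)) := by
  rw [Complex.norm_exp]
  congr 1
  simp
  ring

/-- the inner integrand -/
noncomputable def Fs (m t x s : ℝ) : ℂ := ((Real.exp (-(s / 2)) * EE m s : ℝ) : ℂ) * Dt mr t (x - s)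

theorem Fs_norm (m t x s : ℝ) : ‖Fs m t x s‖ ≤ Real.exp (x / 2) * (Real.exp |s| * EE m s) := by
  unfold Fs
  have h0 := (EE_pos m s).le
  rw [norm_mul, Complex.norm_real, Real.norm_eq_abs, abs_of_nonneg (by positivity)]
  calc Real.exp (-(s / 2)) * EE m s * ‖Dt mr t (x - s)‖ ≤ Real.exp (-(s / 2)) * EE m s * Real.exp ((x - s) / 2) :=
        mul_le_mul_of_nonneg_left (Dt_le t _) (by positivity)
    _ = (Real.exp (-(s / 2)) * Real.exp ((x - s) / 2)) * EE m s := by ring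
    _ = (Real.exp (x / 2) * Real.exp (-s)) * EE m s := by
        rw [← Real.exp_add, ← Real.exp_add]
        congr 2
        ring
    _ ≤ (Real.exp (x / 2) * Real.exp |s|) * EE m s := by
        apply mul_le_mul_of_nonneg_right _ h0
        apply mul_le_mul_of_nonneg_left _ (Real.exp_pos _).le
        exact Real.exp_le_exp.2 (neg_le_abs s)
    _ = _ := by ring

theorem one_le_two {m : ℝ} (s : ℝ) : Real.exp |s| * EE m s ≤ Real.exp (2 * |s|) * EE m s := by
  apply mul_le_mul_of_nonneg_right _ (EE_pos m s).le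
  apply Real.exp_le_exp.2
  linarith [abs_nonneg s]

theorem E1_int {m : ℝ} (hm : 4 ≤ m) : Integrable (fun s => Real.exp |s| * EE m s) := by
  refine (EE_int hm).mono' ?_ ?_
  · exact ((Real.continuous_exp.comp continuous_abs).mul (EE_cont m)).aestronglyMeasurable
  · refine Filter.Eventually.of_forall fun s => ?_
    rw [Real.norm_eq_abs, abs_of_nonneg (mul_nonneg (Real.exp_pos _).le (EE_pos m s).le)]
    exact one_le_two s

theorem E0_int {m : ℝ} (hm : 4 ≤ m) : Integrable (fun s => EE m s) := by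
  refine (E1_int hm).mono' (EE_cont m).aestronglyMeasurable ?_
  refine Filter.Eventually.of_forall fun s => ?_
  rw [Real.norm_eq_abs, abs_of_nonneg (EE_pos m s).le]
  exact le_mul_of_one_le_left (EE_pos m s).le (Real.one_le_exp (abs_nonneg s))

theorem Fs_int {m : ℝ} (hm : 4 ≤ m) (t x : ℝ) : Integrable (Fs m t x) := by
  refine ((E1_int hm).const_mul (Real.exp (x / 2))).mono' ?_ (Filter.Eventually.of_forall fun s => Fs_norm m t x s)
  unfold Fs
  refine AEStronglyMeasurable.mul ?_ ?_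
  · have : Continuous fun s : ℝ => ((Real.exp (-(s / 2)) * EE m s : ℝ) : ℂ) := by
      have := EE_cont m
      fun_prop
    exact this.aestronglyMeasurable
  · exact ((Dt_meas mr t).comp (measurable_const.sub measurable_id)).aestronglyMeasurable

/-- an average is close to a constant -/
theorem avg_bd {δ c : ℝ} (hδ : 0 < δ) {A : ℝ → ℂ} (hA : Continuous A) {C : ℂ} {T : ℝ}
    (h : ∀ w ∈ Set.Icc (c - δ) (c + δ), ‖A w - C‖ ≤ T) :
    ‖((2 * δ : ℝ) : ℂ)⁻¹ * (∫ w in Set.Icc (c - δ) (c + δ), A w) - C‖ ≤ T := by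
  have hd : (0 : ℝ) < 2 * δ := by linarith
  have hdc : ((2 * δ : ℝ) : ℂ) ≠ 0 := by exact_mod_cast hd.ne'
  have i1 : IntegrableOn A (Set.Icc (c - δ) (c + δ)) := hA.continuousOn.integrableOn_compact isCompact_Icc
  have i2 : IntegrableOn (fun _ : ℝ => C) (Set.Icc (c - δ) (c + δ)) := continuousOn_const.integrableOn_compact isCompact_Icc
  have hv : volume.real (Set.Icc (c - δ) (c + δ)) = 2 * δ := by
    rw [Real.volume_real_Icc_of_le (by linarith)]
    ring
  have e1 : ∫ w in Set.Icc (c - δ) (c + δ), (A w - C) = (∫ w in Set.Icc (c - δ) (c + δ), A w) - ((2 * δ : ℝ) : ℂ) * C := by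
    rw [integral_sub i1 i2, setIntegral_const, hv]
    rfl
  have h1 : ‖∫ w in Set.Icc (c - δ) (c + δ), (A w - C)‖ ≤ T * (2 * δ) := by
    rw [← hv]
    exact norm_setIntegral_le_of_norm_le_const measure_Icc_lt_top h
  have e2 : ((2 * δ : ℝ) : ℂ)⁻¹ * (∫ w in Set.Icc (c - δ) (c + δ), A w) - C =
      ((2 * δ : ℝ) : ℂ)⁻¹ * ∫ w in Set.Icc (c - δ) (c + δ), (A w - C) := by
    rw [e1, mul_sub, inv_mul_cancel_left₀ hdc]
  rw [e2, norm_mul, norm_inv, Complex.norm_real, Real.norm_eq_abs, abs_of_pos hd, inv_mul_le_iff₀ hd]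
  linarith

/-- the whole average over `om` is close to a constant -/
theorem om_near {v0 δ : ℝ} (hδ : 0 < δ) {A : ℝ → ℂ} (hA : Continuous A) {C : ℂ} {T1 T2 : ℝ}
    (h1 : ∀ w ∈ Set.Icc (v0 - δ) (v0 + δ), ‖A w - C‖ ≤ T1) (h2 : ∀ w ∈ Set.Icc (-(1 / 4) - δ) (-(1 / 4) + δ), ‖A w‖ ≤ T2) :
    ‖(∫ w, (om v0 δ w : ℂ) * A w) - C‖ ≤ T1 + T2 := by
  rw [om_split hδ hA]
  have a1 := avg_bd hδ hA h1
  have a2 := avg_bd (C := 0) hδ hA (fun w hw => by rw [sub_zero]; exact h2 w hw)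
  rw [sub_zero] at a2
  rw [mul_sub, sub_right_comm]
  exact (norm_sub_le _ _).trans (add_le_add a1 a2)

/-- the floor near `n + 1/2` -/
theorem floor_near {n : ℕ} (hn : 1 ≤ n) {x : ℝ} (hx : |x - Real.log (n + 1 / 2)| ≤ 1 / (8 * n)) : ⌊Real.exp x⌋₊ = n := by
  have hn1 : (1 : ℝ) ≤ n := by exact_mod_cast hn
  have hp : (0 : ℝ) < n + 1 / 2 := by linarith
  obtain ⟨h1, h2⟩ := abs_le.1 hx
  have e : Real.exp x = (n + 1 / 2) * Real.exp (x - Real.log (n + 1 / 2)) := by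
    rw [Real.exp_sub, Real.exp_log hp]
    field_simp
  rw [Nat.floor_eq_iff (Real.exp_pos _).le, e]
  have h8 : (0 : ℝ) < 8 * n := by linarith
  constructor
  · have h3 := Real.add_one_le_exp (x - Real.log (n + 1 / 2))
    have h4 : 1 - 1 / (8 * n) ≤ Real.exp (x - Real.log (n + 1 / 2)) := by linarith
    have h5 : ((n : ℝ) + 1 / 2) * (1 - 1 / (8 * n)) ≤ (n + 1 / 2) * Real.exp (x - Real.log (n + 1 / 2)) :=
      mul_le_mul_of_nonneg_left h4 hp.le
    refine le_trans ?_ h5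
    have h6 : ((n : ℝ) + 1 / 2) * (1 / (8 * n)) ≤ 1 / 2 := by
      rw [mul_one_div, div_le_iff₀ h8]
      linarith
    linarith
  · have h3 : Real.exp (x - Real.log (n + 1 / 2)) ≤ 1 / (1 - 1 / (8 * n)) := by
      refine (Real.exp_le_exp.2 h2).trans ?_
      apply Real.exp_bound_div_one_sub_of_interval (by positivity)
      rw [div_lt_one h8]
      linarith
    have h4 : (1 : ℝ) / (1 - 1 / (8 * n)) = 8 * n / (8 * n - 1) := by
      have : (8 : ℝ) * n - 1 ≠ 0 := by linarith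
      have h6 : (1 : ℝ) - 1 / (8 * n) = (8 * n - 1) / (8 * n) := by field_simp
      rw [h6, one_div_div]
    rw [h4] at h3
    have h5 : ((n : ℝ) + 1 / 2) * Real.exp (x - Real.log (n + 1 / 2)) ≤ (n + 1 / 2) * (8 * n / (8 * n - 1)) :=
      mul_le_mul_of_nonneg_left h3 hp.le
    refine lt_of_le_of_lt h5 ?_
    have h7 : (0 : ℝ) < 8 * n - 1 := by linarith
    rw [mul_div_assoc', div_lt_iff₀ h7]
    nlinarith

theorem Gt_near {n : ℕ} (hn : 1 ≤ n) (a : ℕ → ℝ) (t : ℝ) {x : ℝ} (hx : |x - Real.log (n + 1 / 2)| ≤ 1 / (8 * n)) :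
    Gt a t (Real.exp x) = Gt a t n := by
  unfold Gt
  rw [floor_near hn hx, Nat.floor_natCast]

theorem Gt_le (t : ℝ) (n : ℕ) : ‖Gt mr t n‖ ≤ n := by
  unfold Gt
  rw [Nat.floor_natCast]
  refine (norm_sum_le _ _).trans ?_
  calc ∑ i ∈ Finset.Icc 1 n, ‖(mr i : ℂ) * Complex.exp (((t * Real.log i : ℝ) : ℂ) * Complex.I)‖ ≤ ∑ i ∈ Finset.Icc 1 n, (1 : ℝ) := by
        refine Finset.sum_le_sum fun i _ => ?_
        rw [norm_mul, Complex.norm_exp_ofReal_mul_I, mul_one, Complex.norm_real, Real.norm_eq_abs]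
        unfold mr
        rw [← Int.cast_abs]
        exact_mod_cast ArithmeticFunction.abs_moebius_le_one
    _ = n := by simp

/-- the sharp integral -/
noncomputable def Jr (m t r : ℝ) : ℂ := ∫ s in {s : ℝ | |s| ≤ r}, Complex.exp ((t * s : ℝ) * Complex.I) * (EE m s : ℂ)

theorem compl_r (r : ℝ) : {s : ℝ | |s| ≤ r}ᶜ = {s : ℝ | r < |s|} := by
  ext s
  simp

theorem meas_r (r : ℝ) : MeasurableSet {s : ℝ | |s| ≤ r} := measurableSet_le continuous_abs.measurable measurable_const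

/-- the tail part of the inner integral -/
theorem tail_part {m r : ℝ} (hm : 4 ≤ m) (hr : 0 < r) (hr1 : r ≤ 1) (t x : ℝ) :
    ‖∫ s in {s : ℝ | r < |s|}, Fs m t x s‖ ≤ Real.exp (x / 2) * (60 * Real.exp (-((m - 4) * r ^ 2 / 4))) := by
  have h1 : ‖∫ s in {s : ℝ | r < |s|}, Fs m t x s‖ ≤ ∫ s in {s : ℝ | r < |s|}, Real.exp (x / 2) * (Real.exp (2 * |s|) * EE m s) :=
    norm_integral_le_of_norm_le (((EE_int hm).const_mul _).integrableOn) (Filter.Eventually.of_forall fun s =>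
      (Fs_norm m t x s).trans (mul_le_mul_of_nonneg_left (one_le_two s) (Real.exp_pos _).le))
  rw [integral_const_mul] at h1
  exact h1.trans (mul_le_mul_of_nonneg_left (EE_tail hm hr hr1) (Real.exp_pos _).le)

/-- the inner term, near `v0` -/
theorem inner_v0 {m r : ℝ} (hm : 4 ≤ m) {n : ℕ} (hn : 1 ≤ n) (hr : 0 < r) (hr1 : r ≤ 1 / (24 * n)) {t v w : ℝ} (hv : |v| ≤ r)
    (hw : w ∈ Set.Icc (Real.log (n + 1 / 2) - 1 / (24 * n)) (Real.log (n + 1 / 2) + 1 / (24 * n))) :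
    ‖Complex.exp ((1 / 2 + t * Complex.I) * w) * (∫ s, Fs m t (v + w) s) -
      Gt mr t n * (Complex.exp (-((1 / 2 + t * Complex.I) * v)) * Jr m t r)‖ ≤
      (2 * n + 1) * (60 * Real.exp (-((m - 4) * r ^ 2 / 4))) := by
  have hn1 : (1 : ℝ) ≤ n := by exact_mod_cast hn
  have hp : (0 : ℝ) < n + 1 / 2 := by linarith
  have h24 : (1 : ℝ) / (24 * n) ≤ 1 / 24 := one_div_le_one_div_of_le (by norm_num) (by linarith)
  have hr24 : r ≤ 1 / 24 := hr1.trans h24
  obtain ⟨hv1, hv2⟩ := abs_le.1 hv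
  have hsplit : ∫ s, Fs m t (v + w) s = (∫ s in {s : ℝ | |s| ≤ r}, Fs m t (v + w) s) + ∫ s in {s : ℝ | r < |s|}, Fs m t (v + w) s := by
    rw [← compl_r, integral_add_compl (meas_r r) (Fs_int hm t _)]
  have hmain : Complex.exp ((1 / 2 + t * Complex.I) * w) * (∫ s in {s : ℝ | |s| ≤ r}, Fs m t (v + w) s) =
      Gt mr t n * (Complex.exp (-((1 / 2 + t * Complex.I) * v)) * Jr m t r) := by
    unfold Jr
    rw [← integral_const_mul, ← integral_const_mul, ← integral_const_mul]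
    refine setIntegral_congr_fun (meas_r r) fun s hs => ?_
    have hs' : |s| ≤ r := hs
    obtain ⟨hs1, hs2⟩ := abs_le.1 hs'
    have hx : |(v + w - s) - Real.log (n + 1 / 2)| ≤ 1 / (8 * n) := by
      have h3 : (1 : ℝ) / (8 * n) = 3 * (1 / (24 * n)) := by field_simp; norm_num
      rw [h3, abs_le]
      constructor <;> linarith [hw.1, hw.2]
    show Complex.exp ((1 / 2 + t * Complex.I) * w) * Fs m t (v + w) s =
      Gt mr t n * (Complex.exp (-((1 / 2 + t * Complex.I) * v)) * (Complex.exp ((t * s : ℝ) * Complex.I) * (EE m s : ℂ)))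
    unfold Fs Dt
    rw [Gt_near hn mr t hx]
    have e1 : ((Real.exp (-(s / 2)) * EE m s : ℝ) : ℂ) = Complex.exp (-((s : ℂ) / 2)) * (EE m s : ℂ) := by
      push_cast
      rfl
    rw [e1]
    have e2 : Complex.exp ((1 / 2 + t * Complex.I) * w) * (Complex.exp (-((s : ℂ) / 2)) *
        Complex.exp (-((1 / 2 + t * Complex.I) * ((v + w - s : ℝ) : ℂ)))) =
        Complex.exp (-((1 / 2 + t * Complex.I) * v)) * Complex.exp ((t * s : ℝ) * Complex.I) := by
      rw [← Complex.exp_add, ← Complex.exp_add, ← Complex.exp_add]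
      congr 1
      push_cast
      ring
    calc _ = Gt mr t n * (Complex.exp ((1 / 2 + t * Complex.I) * w) * (Complex.exp (-((s : ℂ) / 2)) *
        Complex.exp (-((1 / 2 + t * Complex.I) * ((v + w - s : ℝ) : ℂ)))) * (EE m s : ℂ)) := by ring
      _ = _ := by rw [e2]; ring
  have htail := tail_part hm hr (by linarith) t (v + w)
  rw [hsplit, mul_add, hmain, add_sub_cancel_left, norm_mul, norm_e]
  have h1 : Real.exp (w / 2) * Real.exp ((v + w) / 2) ≤ 2 * n + 1 := by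
    rw [← Real.exp_add]
    have h2 : w / 2 + (v + w) / 2 ≤ Real.log (n + 1 / 2) + 1 / 8 := by linarith [hw.2]
    have h3 : Real.exp (1 / 8) ≤ 2 := by
      have := Real.exp_bound_div_one_sub_of_interval (x := 1 / 8) (by norm_num) (by norm_num)
      linarith
    calc Real.exp (w / 2 + (v + w) / 2) ≤ Real.exp (Real.log (n + 1 / 2) + 1 / 8) := Real.exp_le_exp.2 h2
      _ = (n + 1 / 2) * Real.exp (1 / 8) := by rw [Real.exp_add, Real.exp_log hp]
      _ ≤ (n + 1 / 2) * 2 := mul_le_mul_of_nonneg_left h3 hp.le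
      _ = 2 * n + 1 := by ring
  calc Real.exp (w / 2) * ‖∫ s in {s : ℝ | r < |s|}, Fs m t (v + w) s‖ ≤
        Real.exp (w / 2) * (Real.exp ((v + w) / 2) * (60 * Real.exp (-((m - 4) * r ^ 2 / 4)))) :=
        mul_le_mul_of_nonneg_left htail (Real.exp_pos _).le
    _ = (Real.exp (w / 2) * Real.exp ((v + w) / 2)) * (60 * Real.exp (-((m - 4) * r ^ 2 / 4))) := by ring
    _ ≤ _ := mul_le_mul_of_nonneg_right h1 (by positivity)

/-- the inner term, near `-1/4` -/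
theorem inner_q {m r : ℝ} (hm : 4 ≤ m) {δ : ℝ} (hδ : δ ≤ 1 / 24) (hr : 0 < r) (hr1 : r ≤ 1 / 24) {t v w : ℝ} (hv : |v| ≤ r)
    (hw : w ∈ Set.Icc (-(1 / 4) - δ) (-(1 / 4) + δ)) :
    ‖Complex.exp ((1 / 2 + t * Complex.I) * w) * (∫ s, Fs m t (v + w) s)‖ ≤ 60 * Real.exp (-((m - 4) * r ^ 2 / 4)) := by
  obtain ⟨hv1, hv2⟩ := abs_le.1 hv
  have hsplit : ∫ s, Fs m t (v + w) s = (∫ s in {s : ℝ | |s| ≤ r}, Fs m t (v + w) s) + ∫ s in {s : ℝ | r < |s|}, Fs m t (v + w) s := by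
    rw [← compl_r, integral_add_compl (meas_r r) (Fs_int hm t _)]
  have hmain : ∫ s in {s : ℝ | |s| ≤ r}, Fs m t (v + w) s = 0 := by
    have : ∫ s in {s : ℝ | |s| ≤ r}, Fs m t (v + w) s = ∫ s in {s : ℝ | |s| ≤ r}, (0 : ℂ) := by
      refine setIntegral_congr_fun (meas_r r) fun s hs => ?_
      have hs' : |s| ≤ r := hs
      obtain ⟨hs1, hs2⟩ := abs_le.1 hs'
      show Fs m t (v + w) s = 0
      unfold Fs
      rw [Dt_neg mr t (by linarith [hw.2] : v + w - s < 0), mul_zero]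
    rw [this]
    simp
  have htail := tail_part hm hr (by linarith) t (v + w)
  rw [hsplit, hmain, zero_add, norm_mul, norm_e]
  have h1 : Real.exp (w / 2) * Real.exp ((v + w) / 2) ≤ 1 := by
    rw [← Real.exp_add]
    exact Real.exp_le_one_iff.2 (by linarith [hw.2])
  calc Real.exp (w / 2) * ‖∫ s in {s : ℝ | r < |s|}, Fs m t (v + w) s‖ ≤
        Real.exp (w / 2) * (Real.exp ((v + w) / 2) * (60 * Real.exp (-((m - 4) * r ^ 2 / 4)))) :=
        mul_le_mul_of_nonneg_left htail (Real.exp_pos _).le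
    _ = (Real.exp (w / 2) * Real.exp ((v + w) / 2)) * (60 * Real.exp (-((m - 4) * r ^ 2 / 4))) := by ring
    _ ≤ 1 * (60 * Real.exp (-((m - 4) * r ^ 2 / 4))) := mul_le_mul_of_nonneg_right h1 (by positivity)
    _ = _ := one_mul _

/-- the sharp integral is close to `I0` -/
theorem Q_near {m r : ℝ} (hm : 4 ≤ m) (hr : 0 < r) (hr1 : r ≤ 1 / 24) {t v : ℝ} (hv : |v| ≤ r) (htr : |t| * r ≤ 1 / 8) :
    ‖Complex.exp (-((1 / 2 + t * Complex.I) * v)) * Jr m t r - (I0 m : ℂ)‖ ≤ 1 / 2 * I0 m + 60 * Real.exp (-((m - 4) * r ^ 2 / 4)) := by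
  set Er : ℝ := 60 * Real.exp (-((m - 4) * r ^ 2 / 4)) with hEr
  have hI : 0 ≤ I0 m := integral_nonneg fun s => (EE_pos m s).le
  have i0 := E0_int hm
  set Sr : ℝ := ∫ s in {s : ℝ | |s| ≤ r}, EE m s with hSr
  have hosc : ‖Jr m t r - (Sr : ℂ)‖ ≤ |t| * r * I0 m := EE_osc hm hr
  have hosc' : ‖Jr m t r - (Sr : ℂ)‖ ≤ 1 / 8 * I0 m := hosc.trans (mul_le_mul_of_nonneg_right htr hI)
  have hcompl : Sr + ∫ s in {s : ℝ | r < |s|}, EE m s = I0 m := by
    rw [hSr, ← compl_r, integral_add_compl (meas_r r) i0]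
    rfl
  have htail0 : 0 ≤ ∫ s in {s : ℝ | r < |s|}, EE m s := integral_nonneg fun s => (EE_pos m s).le
  have htail : ∫ s in {s : ℝ | r < |s|}, EE m s ≤ Er := by
    refine le_trans ?_ (EE_tail hm hr (by linarith))
    refine integral_mono i0.integrableOn (EE_int hm).integrableOn fun s => ?_
    exact le_mul_of_one_le_left (EE_pos m s).le (Real.one_le_exp (by positivity))
  have hSr0 : ‖(Sr : ℂ) - (I0 m : ℂ)‖ ≤ Er := by
    rw [← Complex.ofReal_sub, Complex.norm_real, Real.norm_eq_abs, abs_le]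
    constructor <;> linarith
  have hJ : ‖Jr m t r‖ ≤ I0 m := by
    refine (norm_integral_le_of_norm_le (g := fun s => EE m s) i0.integrableOn (Filter.Eventually.of_forall fun s => ?_)).trans ?_
    · rw [norm_mul, Complex.norm_exp_ofReal_mul_I, one_mul, Complex.norm_real, Real.norm_eq_abs, abs_of_pos (EE_pos m s)]
    · linarith
  have hphase : ‖Complex.exp (-((1 / 2 + t * Complex.I) * v)) - 1‖ ≤ 7 / 24 := by
    have hz : ‖-((1 / 2 + t * Complex.I) * (v : ℂ))‖ ≤ 7 / 48 := by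
      rw [norm_neg, norm_mul, Complex.norm_real, Real.norm_eq_abs]
      have h1 : ‖(1 / 2 + t * Complex.I : ℂ)‖ ≤ 1 / 2 + |t| := by
        refine (norm_add_le _ _).trans (add_le_add ?_ ?_)
        · norm_num
        · rw [norm_mul, Complex.norm_I, mul_one, Complex.norm_real, Real.norm_eq_abs]
      calc ‖(1 / 2 + t * Complex.I : ℂ)‖ * |v| ≤ (1 / 2 + |t|) * r := mul_le_mul h1 hv (abs_nonneg _) (by positivity)
        _ = 1 / 2 * r + |t| * r := by ring
        _ ≤ 7 / 48 := by linarith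
    have h2 := Complex.norm_exp_sub_one_le (hz.trans (by norm_num))
    linarith
  have e : Complex.exp (-((1 / 2 + t * Complex.I) * v)) * Jr m t r - (I0 m : ℂ) =
      (Complex.exp (-((1 / 2 + t * Complex.I) * v)) - 1) * Jr m t r + (Jr m t r - (Sr : ℂ)) + ((Sr : ℂ) - (I0 m : ℂ)) := by ring
  rw [e]
  refine (norm_add_le _ _).trans ?_
  have h3 : ‖(Complex.exp (-((1 / 2 + t * Complex.I) * v)) - 1) * Jr m t r‖ ≤ 7 / 24 * I0 m := by
    rw [norm_mul]
    exact mul_le_mul hphase hJ (norm_nonneg _) (by norm_num)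
  have h4 := norm_add_le ((Complex.exp (-((1 / 2 + t * Complex.I) * v)) - 1) * Jr m t r) (Jr m t r - (Sr : ℂ))
  linarith

theorem m_ge {k : ℕ} (hk : 16 ≤ k) : (64 : ℝ) ≤ ((4 * k : ℕ) : ℝ) := by
  push_cast
  have : (16 : ℝ) ≤ k := by exact_mod_cast hk
  linarith

/-- the dual part for our parameters -/
theorem dual_bd {B : ℝ} (h : GB (ff mr) B) {k : ℕ} (hk : 16 ≤ k) {n : ℕ} (hn : 1 ≤ n) {t v : ℝ} (hv : |v| ≤ 1 / 2) (hB : 0 ≤ B) (hCE : 0 ≤ CE) :
    ‖Tc (fk t (Real.log (n + 1 / 2)) (1 / (24 * n))) (gB k) v‖ ≤ 912 * B * CE * √n / √((4 * k : ℕ) : ℝ) := by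
  obtain ⟨b1, b2, -⟩ := v0_bd hn
  have hn1 : (1 : ℝ) ≤ n := by exact_mod_cast hn
  have h24 : (1 : ℝ) / (24 * n) ≤ 1 / 24 := one_div_le_one_div_of_le (by norm_num) (by linarith)
  have h1 := tc_gB h (by omega : 2 ≤ k) (by positivity : (0 : ℝ) < 1 / (24 * n)) (by linarith) b1 t (V := v) (by linarith [(abs_le.1 hv).1])
  refine h1.trans ?_
  have h2 : 0 ≤ 228 * B * CE / √((4 * k : ℕ) : ℝ) := by positivity
  calc 2 * Real.exp ((Real.log (n + 1 / 2) + 1 / (24 * n)) / 2) * (228 * B * CE / √((4 * k : ℕ) : ℝ)) ≤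
        2 * (2 * √n) * (228 * B * CE / √((4 * k : ℕ) : ℝ)) :=
        mul_le_mul_of_nonneg_right (mul_le_mul_of_nonneg_left b2 (by norm_num)) h2
    _ = _ := by ring

theorem B_nonneg {B : ℝ} (h : GB (ff mr) B) : 0 ≤ B := by
  have h1 := (abs_nonneg _).trans (h 0)
  unfold ell at h1
  simpa using h1

theorem CE_nonneg : 0 ≤ CE := by
  unfold CE
  refine integral_nonneg fun v => ?_
  unfold ell
  have : 0 ≤ Real.log (1 + |v|) := Real.log_nonneg (by linarith [abs_nonneg v])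
  positivity

theorem near {B : ℝ} (h : GB (ff mr) B) {k : ℕ} (hk : 16 ≤ k) {n : ℕ} (hn : 1 ≤ n) {t r : ℝ} (hr : 0 < r) (hr1 : r ≤ 1 / (24 * n))
    (htr : |t| * r ≤ 1 / 8) {v : ℝ} (hv : |v| ≤ r) :
    ‖Tc (fk t (Real.log (n + 1 / 2)) (1 / (24 * n))) (gg (4 * k)) v - Gt mr t n * (I0 ((4 * k : ℕ) : ℝ) : ℂ)‖ ≤
      1 / 2 * ‖Gt mr t n‖ * I0 ((4 * k : ℕ) : ℝ) + 600 * (n + 1) * Real.exp (-((((4 * k : ℕ) : ℝ) - 4) * r ^ 2 / 4)) +
        912 * B * CE * √n / √((4 * k : ℕ) : ℝ) := by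
  have hm := m_ge hk
  have hm4 : (4 : ℝ) ≤ ((4 * k : ℕ) : ℝ) := by linarith
  obtain ⟨b1, b2, b3⟩ := v0_bd hn
  have hn1 : (1 : ℝ) ≤ n := by exact_mod_cast hn
  have h24 : (1 : ℝ) / (24 * n) ≤ 1 / 24 := one_div_le_one_div_of_le (by norm_num) (by linarith)
  have hr24 : r ≤ 1 / 24 := hr1.trans h24
  have hδ : (0 : ℝ) < 1 / (24 * n) := by positivity
  have hk2 : 2 ≤ k := by omega
  have hd := dual_bd (t := t) h hk hn (hv.trans (by linarith)) (B_nonneg h) CE_nonneg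
  rw [tc_split h hk2 hδ (by linarith) b1 t v, tc_gA hk2 hδ (by linarith) b1 t v]
  set m : ℝ := ((4 * k : ℕ) : ℝ) with hmdef
  set Er : ℝ := 60 * Real.exp (-((m - 4) * r ^ 2 / 4)) with hEr
  have hEr0 : 0 ≤ Er := by positivity
  have hcont := inner_cont hk2 t v
  have hA := om_near (v0 := Real.log (n + 1 / 2)) hδ hcont
    (C := Gt mr t n * (Complex.exp (-((1 / 2 + t * Complex.I) * v)) * Jr m t r)) (T1 := (2 * n + 1) * Er) (T2 := Er)
    (fun w hw => inner_v0 hm4 hn hr hr1 hv hw) (fun w hw => inner_q hm4 h24 hr hr24 hv hw)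
  have hQ := Q_near hm4 hr hr24 hv htr
  have hG := Gt_le t n
  have hGQ : ‖Gt mr t n * (Complex.exp (-((1 / 2 + t * Complex.I) * v)) * Jr m t r) - Gt mr t n * (I0 m : ℂ)‖ ≤
      1 / 2 * ‖Gt mr t n‖ * I0 m + n * Er := by
    rw [← mul_sub, norm_mul]
    calc ‖Gt mr t n‖ * ‖Complex.exp (-((1 / 2 + t * Complex.I) * v)) * Jr m t r - (I0 m : ℂ)‖ ≤
          ‖Gt mr t n‖ * (1 / 2 * I0 m + Er) := mul_le_mul_of_nonneg_left hQ (norm_nonneg _)
      _ = 1 / 2 * ‖Gt mr t n‖ * I0 m + ‖Gt mr t n‖ * Er := by ring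
      _ ≤ _ := by linarith [mul_le_mul_of_nonneg_right hG hEr0]
  set X : ℂ := ∫ w, (om (Real.log (n + 1 / 2)) (1 / (24 * n)) w : ℂ) * (Complex.exp ((1 / 2 + t * Complex.I) * w) *
      ∫ s, ((Real.exp (-(s / 2)) * EE m s : ℝ) : ℂ) * Dt mr t (v + w - s)) with hX
  set Y : ℂ := Tc (fk t (Real.log (n + 1 / 2)) (1 / (24 * n))) (gB k) v with hY
  set Z : ℂ := Gt mr t n * (Complex.exp (-((1 / 2 + t * Complex.I) * v)) * Jr m t r) with hZ
  have hA' : ‖X - Z‖ ≤ (2 * n + 1) * Er + Er := hA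
  have e : X - Y - Gt mr t n * (I0 m : ℂ) = (X - Z) + (Z - Gt mr t n * (I0 m : ℂ)) - Y := by ring
  rw [e]
  have n1 := norm_sub_le ((X - Z) + (Z - Gt mr t n * (I0 m : ℂ))) Y
  have n2 := norm_add_le (X - Z) (Z - Gt mr t n * (I0 m : ℂ))
  have hexp : 0 < Real.exp (-((m - 4) * r ^ 2 / 4)) := Real.exp_pos _
  have hfin : (2 * n + 1) * Er + Er + n * Er ≤ 600 * (n + 1) * Real.exp (-((m - 4) * r ^ 2 / 4)) := by
    rw [hEr]
    have : (2 * (n : ℝ) + 1) * 60 + 60 + n * 60 ≤ 600 * (n + 1) := by linarith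
    calc _ = ((2 * (n : ℝ) + 1) * 60 + 60 + n * 60) * Real.exp (-((m - 4) * r ^ 2 / 4)) := by ring
      _ ≤ _ := mul_le_mul_of_nonneg_right this hexp.le
  linarith

theorem near_crude {B : ℝ} (h : GB (ff mr) B) {k : ℕ} (hk : 16 ≤ k) {n : ℕ} (hn : 1 ≤ n) {t : ℝ} {v : ℝ} (hv : |v| ≤ 1 / 2) :
    ‖Tc (fk t (Real.log (n + 1 / 2)) (1 / (24 * n))) (gg (4 * k)) v‖ ≤
      16 * n * I0 ((4 * k : ℕ) : ℝ) + 912 * B * CE * √n / √((4 * k : ℕ) : ℝ) := by
  have hm := m_ge hk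
  have hm4 : (4 : ℝ) ≤ ((4 * k : ℕ) : ℝ) := by linarith
  obtain ⟨b1, b2, b3⟩ := v0_bd hn
  have hn1 : (1 : ℝ) ≤ n := by exact_mod_cast hn
  have hp : (0 : ℝ) < n + 1 / 2 := by linarith
  have h24 : (1 : ℝ) / (24 * n) ≤ 1 / 24 := one_div_le_one_div_of_le (by norm_num) (by linarith)
  have hδ : (0 : ℝ) < 1 / (24 * n) := by positivity
  have hk2 : 2 ≤ k := by omega
  obtain ⟨hv1, hv2⟩ := abs_le.1 hv
  have hd := dual_bd (t := t) h hk hn hv (B_nonneg h) CE_nonneg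
  rw [tc_split h hk2 hδ (by linarith) b1 t v, tc_gA hk2 hδ (by linarith) b1 t v]
  set m : ℝ := ((4 * k : ℕ) : ℝ) with hmdef
  have hcont := inner_cont hk2 t v
  have hI : 0 ≤ I0 m := integral_nonneg fun s => (EE_pos m s).le
  have hin : ∀ w : ℝ, ‖Complex.exp ((1 / 2 + t * Complex.I) * w) * (∫ s, Fs m t (v + w) s)‖ ≤ Real.exp (w + 1 / 4) * (3 * I0 m) := by
    intro w
    rw [norm_mul, norm_e]
    have h1 : ‖∫ s, Fs m t (v + w) s‖ ≤ ∫ s, Real.exp ((v + w) / 2) * (Real.exp |s| * EE m s) :=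
      norm_integral_le_of_norm_le ((E1_int hm4).const_mul _) (Filter.Eventually.of_forall fun s => Fs_norm m t (v + w) s)
    rw [integral_const_mul] at h1
    have h2 : ‖∫ s, Fs m t (v + w) s‖ ≤ Real.exp ((v + w) / 2) * (3 * I0 m) :=
      h1.trans (mul_le_mul_of_nonneg_left (EE_one hm) (Real.exp_pos _).le)
    calc Real.exp (w / 2) * ‖∫ s, Fs m t (v + w) s‖ ≤ Real.exp (w / 2) * (Real.exp ((v + w) / 2) * (3 * I0 m)) :=
          mul_le_mul_of_nonneg_left h2 (Real.exp_pos _).le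
      _ = (Real.exp (w / 2) * Real.exp ((v + w) / 2)) * (3 * I0 m) := by ring
      _ ≤ _ := by
          apply mul_le_mul_of_nonneg_right _ (by positivity)
          rw [← Real.exp_add]
          exact Real.exp_le_exp.2 (by linarith)
  have hA := om_near (v0 := Real.log (n + 1 / 2)) hδ hcont (C := 0) (T1 := 9 / 4 * n * (3 * I0 m)) (T2 := 2 * (3 * I0 m))
    (fun w hw => by
      rw [sub_zero]
      refine (hin w).trans (mul_le_mul_of_nonneg_right ?_ (by positivity))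
      have h2 : w + 1 / 4 ≤ Real.log (n + 1 / 2) + 1 / 3 := by linarith [hw.2]
      have h3 : Real.exp (1 / 3) ≤ 3 / 2 := by
        have := Real.exp_bound_div_one_sub_of_interval (x := 1 / 3) (by norm_num) (by norm_num)
        norm_num at this ⊢
        linarith
      calc Real.exp (w + 1 / 4) ≤ Real.exp (Real.log (n + 1 / 2) + 1 / 3) := Real.exp_le_exp.2 h2
        _ = (n + 1 / 2) * Real.exp (1 / 3) := by rw [Real.exp_add, Real.exp_log hp]
        _ ≤ (n + 1 / 2) * (3 / 2) := mul_le_mul_of_nonneg_left h3 hp.le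
        _ ≤ 9 / 4 * n := by linarith)
    (fun w hw => by
      refine (hin w).trans (mul_le_mul_of_nonneg_right ?_ (by positivity))
      have h4 : w + 1 / 4 ≤ 1 / 2 := by linarith [hw.2]
      have := Real.exp_bound_div_one_sub_of_interval (x := 1 / 2) (by norm_num) (by norm_num)
      have h5 := Real.exp_le_exp.2 h4
      norm_num at this ⊢
      linarith)
  rw [sub_zero] at hA
  set X : ℂ := ∫ w, (om (Real.log (n + 1 / 2)) (1 / (24 * n)) w : ℂ) * (Complex.exp ((1 / 2 + t * Complex.I) * w) *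
      ∫ s, ((Real.exp (-(s / 2)) * EE m s : ℝ) : ℂ) * Dt mr t (v + w - s)) with hX
  have hA' : ‖X‖ ≤ 9 / 4 * n * (3 * I0 m) + 2 * (3 * I0 m) := hA
  refine (norm_sub_le _ _).trans (add_le_add (hA'.trans ?_) hd)
  have : I0 m ≤ n * I0 m := le_mul_of_one_le_left hI hn1
  linarith

end Pool.Agent.Helper56.ST
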